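import Pool.Agent.H5.RPG.Stmts

set_option autoImplicit false

namespace Pool.RPG

open Filter TMLib Pool.PG

theorem wnr_thm (h1 : RITStmt) (h2 : WNKStmt) (h3 : Pool.PG.SOLStmt) : WNRStmt := by
  intro g i v hg hv
  obtain ⟨⟨σ, hσ⟩, -⟩ := h3 g hg
  have hR := (h1 g i).2 v
  rw [hR] at hv
  obtain ⟨-, hT⟩ := hv
  refine hT {u | win g u = i} (fun u hu => h2 g i u hg hu) ?_
  intro u hu hs
  simp only [Set.mem_setOf_eq] at hs ⊢
  by_contra hne
  by_cases ho : own g u = i
  · rw [if_pos ho] at hs
    obtain ⟨w, hw, hwi⟩ := hs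
    have := hσ.trap u hu (by rw [ho]; exact fun h => hne h.symm) w hw
    exact hne (by rw [← this, hwi])
  · rw [if_neg ho] at hs
    have hwo : own g u = win g u := by
      cases h : own g u <;> cases h' : win g u <;> cases i <;> simp_all
    have := hσ.stay u hu hwo
    rw [hs (σ u) (hσ.mem u hu)] at this
    exact hne this.symm

end Pool.RPG
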